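import Pool.Agent.H37.DEN.TP

/-!
# den_modules, row EMB: a homomorphism to the Laurent series which transforms `τ` into
`φ ↦ φ ^ E`
-/

set_option autoImplicit false

open MvPolynomial Filter
open Pool.Agent.H18.HIT Pool.Agent.H8.TD Pool.Agent.H37.DEN
open Pool.Agent.H55.FFM (Vs PD VM deh trh)

namespace Pool.Agent.H89.DEN

/-- the substitution `φ ↦ φ ^ E` -/
theorem exists_pw (k : Type) [Field k] (E : ℕ) (hE : 1 ≤ E) :
    ∃ pw : LaurentSeries k →ₐ[k] LaurentSeries k, ∀ x, IsPow E x (pw x) := by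
  have hE' : (0 : ℤ) < E := by exact_mod_cast hE
  have hinj : Function.Injective (AddMonoidHom.mulLeft (E : ℤ)) := fun a b h =>
    mul_left_cancel₀ hE'.ne' h
  have hle : ∀ g g' : ℤ, AddMonoidHom.mulLeft (E : ℤ) g ≤ AddMonoidHom.mulLeft (E : ℤ) g' ↔
      g ≤ g' := fun g g' => mul_le_mul_iff_right₀ hE'
  refine ⟨{ HahnSeries.embDomainRingHom (AddMonoidHom.mulLeft (E : ℤ)) hinj hle with
    commutes' := fun c => ?_ }, fun x n => ?_⟩
  · have e1 : algebraMap k (LaurentSeries k) c = HahnSeries.C c := by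
      rw [HahnSeries.algebraMap_apply', PowerSeries.algebraMap_apply, Algebra.algebraMap_self,
        RingHom.id_apply, HahnSeries.ofPowerSeries_C]
    rw [e1]
    exact HahnSeries.embDomainRingHom_C (f := AddMonoidHom.mulLeft (E : ℤ)) (hfi := hinj)
      (hf := hle)
  constructor
  · exact HahnSeries.embDomain_coeff (f := ⟨⟨AddMonoidHom.mulLeft (E : ℤ), hinj⟩, hle _ _⟩)
  · intro hn
    refine HahnSeries.embDomain_of_notMem_range
      (f := ⟨⟨AddMonoidHom.mulLeft (E : ℤ), hinj⟩, hle _ _⟩) ?_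
    rintro ⟨m, hm⟩
    exact hn ⟨m, hm.symm⟩

theorem isPow_unique {k : Type} [Field k] {E : ℕ} {x y y' : LaurentSeries k} (h : IsPow E x y)
    (h' : IsPow E x y') : y = y' := by
  refine HahnSeries.ext (funext fun n => ?_)
  by_cases hn : (E : ℤ) ∣ n
  · obtain ⟨m, rfl⟩ := hn
    rw [(h m).1, (h' m).1]
  · rw [(h n).2 hn, (h' n).2 hn]

section vs

variable {k F S : Type} [Field k] [Field F] [Algebra k F] {v : S → F → ℤ}

theorem vs_one (hv : Vs k v) (s : S) : v s 1 = 0 := by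
  have h := hv.cst s 1 one_ne_zero
  rwa [map_one] at h

theorem vs_zpow (hv : Vs k v) (s : S) {t : F} (ht0 : t ≠ 0) (ht : v s t = 1) (m : ℤ) :
    v s (t ^ m) = m := by
  have hinv : v s t⁻¹ = -1 := by
    have h := hv.mul s t t⁻¹ ht0 (inv_ne_zero ht0)
    rw [mul_inv_cancel₀ ht0, vs_one hv, ht] at h
    omega
  induction m using Int.induction_on with
  | zero => rw [zpow_zero, vs_one hv]
  | succ i ih =>
    rw [zpow_add_one₀ ht0, hv.mul s _ _ (zpow_ne_zero _ ht0) ht0, ih, ht]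
  | pred i ih =>
    rw [zpow_sub_one₀ ht0, hv.mul s _ _ (zpow_ne_zero _ ht0) (inv_ne_zero ht0), ih, hinv]
    omega

/-- approximation by elements at which two homomorphisms agree -/
theorem vs_approx (hv : Vs k v) (s : S) {t : F} (ht0 : t ≠ 0) (ht : v s t = 1) {L : Type}
    [Field L] [Algebra k L] (A₁ A₂ : F →ₐ[k] L) (hA : A₁ t = A₂ t) (a : F) (N : ℕ) :
    ∃ p : F, A₁ p = A₂ p ∧ (a - p = 0 ∨ v s a + N ≤ v s (a - p)) := by
  induction N with
  | zero =>
    refine ⟨0, by rw [map_zero, map_zero], Or.inr ?_⟩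
    rw [sub_zero]
    push_cast
    omega
  | succ N ih =>
    obtain ⟨p, hp, h⟩ := ih
    rcases h with h | h
    · exact ⟨p, hp, Or.inl h⟩
    by_cases hlt : v s a + N < v s (a - p)
    · refine ⟨p, hp, Or.inr ?_⟩
      push_cast
      omega
    have heq : v s (a - p) = v s a + N := le_antisymm (not_lt.1 hlt) h
    by_cases hr : a - p = 0
    · exact ⟨p, hp, Or.inl hr⟩
    obtain ⟨m, hm⟩ : ∃ m : ℤ, m = v s a + N := ⟨_, rfl⟩
    have htm : t ^ m ≠ 0 := zpow_ne_zero _ ht0
    have htm' : t ^ (-m) ≠ 0 := zpow_ne_zero _ ht0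
    have hu : v s ((a - p) * t ^ (-m)) = 0 := by
      rw [hv.mul s _ _ hr htm', vs_zpow hv s ht0 ht, heq, hm]
      omega
    obtain ⟨c, hc⟩ := hv.res s ((a - p) * t ^ (-m)) (mul_ne_zero hr htm') hu.ge
    have hsub : a - (p + algebraMap k F c * t ^ m) =
        ((a - p) * t ^ (-m) - algebraMap k F c) * t ^ m := by
      rw [sub_mul, mul_assoc, ← zpow_add₀ ht0, neg_add_cancel, zpow_zero, mul_one]
      ring
    refine ⟨p + algebraMap k F c * t ^ m, ?_, ?_⟩
    · rw [map_add, map_add, map_mul, map_mul, hp, AlgHom.commutes, AlgHom.commutes,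
        map_zpow₀, map_zpow₀, hA]
    · by_cases h0 : (a - p) * t ^ (-m) - algebraMap k F c = 0
      · left
        rw [hsub, h0, zero_mul]
      · right
        have h1 : 0 < v s ((a - p) * t ^ (-m) - algebraMap k F c) :=
          hc.resolve_left fun h => h0 (sub_eq_zero.2 h)
        rw [hsub, hv.mul s _ _ h0 htm, vs_zpow hv s ht0 ht]
        push_cast
        omega

end vs

theorem pf_EMB (hEXN : T_EXN) (hSBH : T_SBH) (hBOT : T_BOT) : T_EMB := by
  intro k F S _ _ _ _ _ v hv s τ E hE hτ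
  obtain ⟨t, ht0, ht⟩ := hv.nrm s
  obtain ⟨χ₀, hχt, hχo⟩ := hEXN k F S v hv s t ht0 ht
  have hτt : τ t ≠ 0 := (map_ne_zero τ).2 ht0
  have hg0 : χ₀ (τ t) ≠ 0 := (map_ne_zero χ₀).2 hτt
  have hgo : (χ₀ (τ t)).order = E := by
    rw [hχo _ hτt, hτ t ht0, ht, mul_one]
  obtain ⟨ω, hω, hσω⟩ := hBOT k E (χ₀ (τ t)) hE hg0 hgo
  obtain ⟨σ, hσ1, hσo⟩ := hSBH k ω hω
  obtain ⟨pw, hpw⟩ := exists_pw k E (by omega)
  have hord : ∀ a, a ≠ 0 → (σ.comp χ₀ a).order = v s a := by
    intro a ha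
    rw [AlgHom.comp_apply, hσo _ ((map_ne_zero χ₀).2 ha), hχo a ha]
  refine ⟨σ.comp χ₀, hord, fun a => ?_⟩
  have hA : ((σ.comp χ₀).comp τ) t = (pw.comp (σ.comp χ₀)) t := by
    change σ (χ₀ (τ t)) = pw (σ (χ₀ t))
    rw [hχt, hσ1]
    exact isPow_unique (hσω σ hσ1 hσo) (hpw ω)
  have key : ((σ.comp χ₀).comp τ) a = (pw.comp (σ.comp χ₀)) a := by
    refine HahnSeries.ext (funext fun n => ?_)
    obtain ⟨p, hp, h⟩ := vs_approx hv s ht0 ht _ _ hA a (|n| + |v s a| + 1).toNat
    have hr1 : (((σ.comp χ₀).comp τ) (a - p)).coeff n = 0 ∧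
        ((pw.comp (σ.comp χ₀)) (a - p)).coeff n = 0 := by
      by_cases hr : a - p = 0
      · rw [hr, map_zero, map_zero]
        exact ⟨rfl, rfl⟩
      · have h1 : |n| + 1 ≤ v s (a - p) := by
          rcases h with h | h
          · exact absurd h hr
          · have h2 := neg_abs_le (v s a)
            have h3 : ((|n| + |v s a| + 1).toNat : ℤ) = |n| + |v s a| + 1 :=
              Int.toNat_of_nonneg (by positivity)
            rw [h3] at h
            linarith
        have h4 := abs_nonneg n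
        have h5 := le_abs_self n
        have h6 : (2 : ℤ) ≤ E := by exact_mod_cast hE
        constructor
        · apply HahnSeries.coeff_eq_zero_of_lt_order
          rw [AlgHom.comp_apply, hord _ ((map_ne_zero τ).2 hr), hτ _ hr]
          nlinarith
        · rw [AlgHom.comp_apply]
          by_cases hn : (E : ℤ) ∣ n
          · obtain ⟨m, rfl⟩ := hn
            rw [(hpw _ m).1]
            apply HahnSeries.coeff_eq_zero_of_lt_order
            rw [hord _ hr]
            rcases le_or_gt m 0 with hm | hm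
            · linarith
            · nlinarith
          · exact (hpw _ n).2 hn
    have e1 : a = p + (a - p) := by ring
    rw [e1, map_add, map_add, HahnSeries.coeff_add, HahnSeries.coeff_add, hr1.1, hr1.2, hp]
  have h7 := hpw (σ.comp χ₀ a)
  have h8 : pw (σ.comp χ₀ a) = σ.comp χ₀ (τ a) := key.symm
  rw [h8] at h7
  exact h7

end Pool.Agent.H89.DEN
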